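import Mathlib

/-!
# Every `m ∈ E` has a realizing set containing a unit

For `m ≥ 6` the classes of `1, -2, 3, 4, …, b(m)` are `b(m)` distinct residues modulo `m` forming a
zero-sum-free set, and `k(5) = 2 < 3 = b(5)`.  So whenever `k(m) = b(m)`, some realizing set for
`m` contains the unit `1`.
-/

set_option autoImplicit false

open Finset

namespace Pool.Agent.Results.MP_a37b83_nt.UnitRealizing

/-- A set of residues modulo `m` is zero-sum-free if no nonempty subset has sum `0`. -/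
def ZeroSumFree {m : ℕ} (S : Finset (ZMod m)) : Prop :=
  ∀ T : Finset (ZMod m), T ⊆ S → T.Nonempty → ∑ x ∈ T, x ≠ 0

/-- `k(m)`: the largest size of a zero-sum-free set of residues modulo `m`. -/
noncomputable def k (m : ℕ) : ℕ :=
  sSup {r | ∃ S : Finset (ZMod m), ZeroSumFree S ∧ S.card = r}

/-- A realizing set for `m`: a zero-sum-free set of residues modulo `m` with `k(m)` elements. -/
def Realizing {m : ℕ} (S : Finset (ZMod m)) : Prop := ZeroSumFree S ∧ S.card = k m

/-- `b(m) = ⌊(-1 + √(8m+9))/2⌋`. -/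
noncomputable def b (m : ℕ) : ℕ := ⌊(-1 + Real.sqrt (8 * m + 9)) / 2⌋₊

/-- The set `E` of the integers `m ≥ 5` with `k(m) = b(m)`. -/
def E : Set ℕ := {m | 5 ≤ m ∧ k m = b m}

theorem b_mul (m : ℕ) : b m * (b m + 1) ≤ 2 * m + 2 := by
  have h0 : (0 : ℝ) ≤ 8 * m + 9 := by positivity
  have h1 : (0 : ℝ) ≤ (-1 + Real.sqrt (8 * m + 9)) / 2 := by
    have : (1 : ℝ) ≤ Real.sqrt (8 * m + 9) := by
      rw [Real.one_le_sqrt]
      have : (0 : ℝ) ≤ m := Nat.cast_nonneg m
      linarith
    linarith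
  have h2 : (b m : ℝ) ≤ (-1 + Real.sqrt (8 * m + 9)) / 2 := Nat.floor_le h1
  have h3 : (2 * (b m : ℝ) + 1) ≤ Real.sqrt (8 * m + 9) := by linarith
  have h4 : (2 * (b m : ℝ) + 1) ^ 2 ≤ 8 * m + 9 := by
    rw [← Real.sq_sqrt h0]
    exact pow_le_pow_left₀ (by positivity) h3 2
  have h5 : ((b m * (b m + 1) : ℕ) : ℝ) ≤ ((2 * m + 2 : ℕ) : ℝ) := by
    push_cast
    nlinarith
  exact_mod_cast h5

theorem b_ge (m c : ℕ) (hc : c ≠ 0) (h : c * (c + 1) ≤ 2 * m + 2) : c ≤ b m := by
  unfold b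
  rw [Nat.le_floor_iff' hc]
  have h4 : (2 * (c : ℝ) + 1) ^ 2 ≤ 8 * m + 9 := by
    have : ((c * (c + 1) : ℕ) : ℝ) ≤ ((2 * m + 2 : ℕ) : ℝ) := by exact_mod_cast h
    push_cast at this
    nlinarith
  have h5 : (2 * (c : ℝ) + 1) ≤ Real.sqrt (8 * m + 9) := Real.le_sqrt_of_sq_le h4
  linarith

/-- The integers `1, -2, 3, 4, …, c`. -/
noncomputable def base (c : ℕ) : Finset ℤ := insert (-2) ((Icc 1 (c : ℤ)).erase 2)

theorem sum_Icc_int (c : ℕ) : 2 * ∑ x ∈ Icc 1 (c : ℤ), x = c * (c + 1) := by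
  induction c with
  | zero => simp
  | succ c ih =>
    have : Icc (1 : ℤ) ((c + 1 : ℕ) : ℤ) = insert ((c : ℤ) + 1) (Icc 1 (c : ℤ)) := by
      ext x
      simp only [mem_Icc, mem_insert]
      push_cast
      omega
    rw [this, sum_insert (by simp), mul_add, ih]
    push_cast
    ring

theorem base_sum (c m : ℕ) (hc : 2 ≤ c) (hcm : c * (c + 1) ≤ 2 * m + 2) (T : Finset ℤ)
    (hT : T ⊆ base c) (hne : T.Nonempty) :
    ∑ x ∈ T, x ≠ 0 ∧ -2 ≤ ∑ x ∈ T, x ∧ ∑ x ∈ T, x < m := by
  have hpos : ∀ U : Finset ℤ, U ⊆ (Icc 1 (c : ℤ)).erase 2 → 0 ≤ ∑ x ∈ U, x ∧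
      ∑ x ∈ U, x < m := by
    intro U hU
    refine ⟨sum_nonneg (fun x hx => ?_), ?_⟩
    · have := hU hx
      simp only [mem_erase, mem_Icc] at this
      omega
    · have h1 : ∑ x ∈ U, x ≤ ∑ x ∈ (Icc 1 (c : ℤ)).erase 2, x := by
        refine sum_le_sum_of_subset_of_nonneg hU (fun x hx _ => ?_)
        simp only [mem_erase, mem_Icc] at hx
        omega
      have h2 : ∑ x ∈ (Icc 1 (c : ℤ)).erase 2, x + 2 = ∑ x ∈ Icc 1 (c : ℤ), x :=
        sum_erase_add (Icc 1 (c : ℤ)) (fun x => x) (by simp only [mem_Icc]; omega)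
      have h3 := sum_Icc_int c
      have h4 : ((c * (c + 1) : ℕ) : ℤ) ≤ ((2 * m + 2 : ℕ) : ℤ) := by exact_mod_cast hcm
      push_cast at h4
      linarith
  by_cases h2 : (-2 : ℤ) ∈ T
  · have hsplit : ∑ x ∈ T.erase (-2), x + (-2) = ∑ x ∈ T, x := sum_erase_add T (fun x => x) h2
    have hsub : T.erase (-2) ⊆ (Icc 1 (c : ℤ)).erase 2 := by
      intro x hx
      rw [mem_erase] at hx
      have := hT hx.2
      rw [base, mem_insert] at this
      exact this.resolve_left hx.1
    obtain ⟨ha, hb⟩ := hpos _ hsub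
    refine ⟨?_, by linarith, by linarith⟩
    intro h0
    have h22 : ∑ x ∈ T.erase (-2), x = 2 := by linarith
    by_cases h3 : ∃ y ∈ T.erase (-2), 3 ≤ y
    · obtain ⟨y, hy, hy3⟩ := h3
      have : y ≤ ∑ x ∈ T.erase (-2), x := by
        refine single_le_sum (f := fun x : ℤ => x) (fun x hx => ?_) hy
        have := hsub hx
        simp only [mem_erase, mem_Icc] at this
        show (0 : ℤ) ≤ x
        omega
      linarith
    · push Not at h3
      have hsub1 : T.erase (-2) ⊆ {1} := by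
        intro x hx
        have h5 := h3 x hx
        have := hsub hx
        simp only [mem_erase, mem_Icc] at this
        rw [mem_singleton]
        omega
      have : ∑ x ∈ T.erase (-2), x ≤ ∑ x ∈ ({1} : Finset ℤ), x := by
        refine sum_le_sum_of_subset_of_nonneg hsub1 (fun x hx _ => ?_)
        rw [mem_singleton] at hx
        omega
      rw [sum_singleton] at this
      linarith
  · have hsub : T ⊆ (Icc 1 (c : ℤ)).erase 2 := by
      intro x hx
      have := hT hx
      rw [base, mem_insert] at this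
      exact this.resolve_left (fun h => h2 (h ▸ hx))
    obtain ⟨ha, hb⟩ := hpos _ hsub
    refine ⟨?_, by linarith, hb⟩
    have : 0 < ∑ x ∈ T, x := by
      refine sum_pos (fun x hx => ?_) hne
      have := hsub hx
      simp only [mem_erase, mem_Icc] at this
      omega
    exact this.ne'

theorem base_card (c : ℕ) (hc : 2 ≤ c) : (base c).card = c := by
  rw [base, card_insert_of_notMem (by simp), card_erase_of_mem (by simp only [mem_Icc]; omega),
    Int.card_Icc]
  omega

theorem exists_good (m c : ℕ) (hc : 2 ≤ c) (hm : c + 3 ≤ m) (hcm : c * (c + 1) ≤ 2 * m + 2) :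
    ∃ S : Finset (ZMod m), ZeroSumFree S ∧ S.card = c ∧ (1 : ZMod m) ∈ S := by
  have hinj : Set.InjOn (fun x : ℤ => (x : ZMod m)) (base c : Set ℤ) := by
    intro x hx y hy hxy
    have hx' : x ∈ base c := hx
    have hy' : y ∈ base c := hy
    simp only [base, mem_insert, mem_erase, mem_Icc] at hx' hy'
    have h1 : ((x - y : ℤ) : ZMod m) = 0 := by
      have hxy' : (x : ZMod m) = (y : ZMod m) := hxy
      rw [Int.cast_sub, hxy', sub_self]
    rw [ZMod.intCast_zmod_eq_zero_iff_dvd] at h1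
    have h2 : |x - y| < (m : ℤ) := by
      rw [abs_lt]
      omega
    have := Int.eq_zero_of_abs_lt_dvd h1 h2
    linarith
  refine ⟨(base c).image (fun x : ℤ => (x : ZMod m)), ?_, ?_, ?_⟩
  · intro T hT hne h0
    obtain ⟨U, hU, rfl⟩ := subset_image_iff.1 hT
    have hinjU : Set.InjOn (fun x : ℤ => (x : ZMod m)) (U : Set ℤ) :=
      hinj.mono (by exact_mod_cast hU)
    rw [sum_image hinjU] at h0
    have hUne : U.Nonempty := by
      simpa using hne
    obtain ⟨h1, h2, h3⟩ := base_sum c m hc hcm U hU hUne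
    have h4 : ((∑ x ∈ U, x : ℤ) : ZMod m) = 0 := by
      rw [Int.cast_sum]; exact h0
    rw [ZMod.intCast_zmod_eq_zero_iff_dvd] at h4
    refine h1 (Int.eq_zero_of_abs_lt_dvd h4 ?_)
    rw [abs_lt]
    constructor
    · have : (5 : ℤ) ≤ m := by exact_mod_cast (by omega : 5 ≤ m)
      linarith
    · exact h3
  · rw [card_image_of_injOn hinj, base_card c hc]
  · rw [mem_image]
    refine ⟨1, ?_, by simp⟩
    simp only [base, mem_insert, mem_erase, mem_Icc]
    omega

theorem k_five_le : k 5 ≤ 2 := by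
  have key : ∀ S ∈ (univ : Finset (Finset (ZMod 5))), 3 ≤ S.card →
      ∃ T ∈ S.powerset, T.Nonempty ∧ ∑ x ∈ T, x = 0 := by
    decide +kernel
  refine csSup_le' ?_
  rintro r ⟨S, hS, rfl⟩
  by_contra hcon
  push Not at hcon
  obtain ⟨T, hT, hne, h0⟩ := key S (mem_univ S) hcon
  exact hS T (mem_powerset.1 hT) hne h0

/-- For every `m ≥ 5` with `k(m) = b(m)`, some realizing set for `m` contains an element coprime
to `m`; so there is no `m ∈ E` all of whose realizing sets avoid the residues coprime to `m`. -/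
theorem result :
    (∀ m ∈ E, ∃ S : Finset (ZMod m), Realizing S ∧ ∃ a ∈ S, Nat.Coprime a.val m) ∧
      ¬ ∃ m ∈ E, ∀ S : Finset (ZMod m), Realizing S → ∀ a ∈ S, ¬ Nat.Coprime a.val m := by
  have h1 : ∀ m ∈ E, ∃ S : Finset (ZMod m), Realizing S ∧ ∃ a ∈ S, Nat.Coprime a.val m := by
    rintro m ⟨hm5, hkb⟩
    have hb3 : 3 ≤ b m := b_ge m 3 (by norm_num) (by omega)
    have hm6 : 6 ≤ m := by
      rcases Nat.lt_or_ge m 6 with h | h
      · exfalso
        have : m = 5 := by omega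
        subst this
        have := k_five_le
        omega
      · exact h
    have hbm := b_mul m
    have hb : b m + 3 ≤ m := by
      by_contra hcon
      push Not at hcon
      have h4 : m - 2 ≤ b m := by omega
      obtain ⟨q, rfl⟩ : ∃ q, m = q + 6 := ⟨m - 6, by omega⟩
      have h5 : (q + 4) * (q + 5) ≤ b (q + 6) * (b (q + 6) + 1) :=
        Nat.mul_le_mul (by omega) (by omega)
      nlinarith
    obtain ⟨S, hS, hcard, h1S⟩ := exists_good m (b m) (by omega) hb hbm
    refine ⟨S, ⟨hS, by rw [hcard, hkb]⟩, 1, h1S, ?_⟩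
    have : Fact (1 < m) := ⟨by omega⟩
    rw [ZMod.val_one]
    exact Nat.coprime_one_left m
  refine ⟨h1, ?_⟩
  rintro ⟨m, hm, h⟩
  obtain ⟨S, hS, a, ha, hac⟩ := h1 m hm
  exact h S hS a ha hac

end Pool.Agent.Results.MP_a37b83_nt.UnitRealizing
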